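import Mathlib

/-!
Integers `m` with a unique minimal `m`-Markoff triple: the counting function is `O(x / log x)`.
-/

open Filter Asymptotics

namespace Pool.Agent.Results.MP_3400ab_nt.UpperBound

/-- `(a, b, c)` is an `m`-Markoff triple: positive integers with `a² + b² + c² = 3abc + m`. -/
def IsMarkoffTriple (m a b c : ℕ) : Prop :=
  0 < a ∧ 0 < b ∧ 0 < c ∧ a ^ 2 + b ^ 2 + c ^ 2 = 3 * a * b * c + m

/-- The set `𝒪(m)` of minimal `m`-Markoff triples: `a ≤ b ≤ c` and `c ≥ 3ab`. -/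
def minimalTriples (m : ℕ) : Set (ℕ × ℕ × ℕ) :=
  {t | IsMarkoffTriple m t.1 t.2.1 t.2.2 ∧ t.1 ≤ t.2.1 ∧ t.2.1 ≤ t.2.2 ∧
    3 * t.1 * t.2.1 ≤ t.2.2}

/-- The set `U` of integers `m > 1` with exactly one minimal `m`-Markoff triple. -/
def U : Set ℕ := {m | 1 < m ∧ (minimalTriples m).ncard = 1}

/-- The counting function `U(x) = #{m ∈ U : m ≤ x}`. -/
noncomputable def countU (x : ℝ) : ℕ := {m : ℕ | m ∈ U ∧ (m : ℝ) ≤ x}.ncard

/-- A triple `(a, b, d)` with `1 ≤ a ≤ b` and `a² + b² + d² + 3abd = m` gives the minimal triple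
`(a, b, 3ab + d)`. -/
lemma mem_minimal {m a b d : ℕ} (ha : 0 < a) (hab : a ≤ b)
    (h : a ^ 2 + b ^ 2 + d ^ 2 + 3 * a * b * d = m) : (a, b, 3 * a * b + d) ∈ minimalTriples m := by
  have hb : 0 < b := lt_of_lt_of_le ha hab
  refine ⟨⟨ha, hb, by positivity, ?_⟩, hab, ?_, ?_⟩
  · simp only
    rw [← h]; ring
  · simp only
    nlinarith [Nat.mul_le_mul_right b ha]
  · simp only
    omega

/-- The structure of `U`: either `m` is a sum of two positive squares in exactly one way, or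
`m = 3a² + 3a³`. -/
lemma structure_U {m : ℕ} (hm : m ∈ U) :
    (∃ a b : ℕ, 0 < a ∧ a ≤ b ∧ m = a ^ 2 + b ^ 2 ∧
      ∀ a' b' : ℕ, 0 < a' → a' ≤ b' → m = a' ^ 2 + b' ^ 2 → a' = a ∧ b' = b) ∨
    ∃ a : ℕ, 0 < a ∧ m = 3 * a ^ 2 + 3 * a ^ 3 := by
  obtain ⟨_, hcard⟩ := hm
  obtain ⟨⟨a, b, c⟩, ht⟩ := Set.ncard_eq_one.mp hcard
  have hmem : (a, b, c) ∈ minimalTriples m := by rw [ht]; rfl
  have huniq : ∀ t ∈ minimalTriples m, t = (a, b, c) := by
    intro t htm; rw [ht] at htm; exact htm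
  obtain ⟨⟨ha, hb, hc, heq⟩, hab, hbc, hmin⟩ := hmem
  simp only at ha hb hc heq hab hbc hmin
  obtain ⟨d, rfl⟩ := Nat.exists_eq_add_of_le hmin
  have hmd : a ^ 2 + b ^ 2 + d ^ 2 + 3 * a * b * d = m := by nlinarith
  rcases Nat.eq_zero_or_pos d with hd | hd
  · left
    subst hd
    refine ⟨a, b, ha, hab, by rw [← hmd]; ring, ?_⟩
    intro a' b' ha' hab' hm'
    have := huniq _ (mem_minimal (m := m) (d := 0) ha' hab' (by rw [hm']; ring))
    simp only [Prod.mk.injEq] at this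
    exact ⟨this.1, this.2.1⟩
  · right
    refine ⟨a, ha, ?_⟩
    rcases le_total b d with hbd | hdb
    · have := huniq _ (mem_minimal (m := m) (d := a) hb hbd (by rw [← hmd]; ring))
      simp only [Prod.mk.injEq] at this
      obtain ⟨h1, h2, _⟩ := this
      subst h1; subst h2
      rw [← hmd]; ring
    · have h1 := huniq _ (mem_minimal (m := m) (d := a) hd hdb (by rw [← hmd]; ring))
      simp only [Prod.mk.injEq] at h1
      obtain ⟨h1, _, _⟩ := h1
      subst h1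
      have h2 := huniq _ (mem_minimal (m := m) (d := b) hd le_rfl (by rw [← hmd]; ring))
      simp only [Prod.mk.injEq] at h2
      obtain ⟨_, h2, _⟩ := h2
      subst h2
      rw [← hmd]; ring

/-! ### Numbers with a unique representation as a sum of two positive squares -/

lemma pos_ne_of_squarefree {n x y : ℕ} (hn : Squarefree n) (h2 : 2 < n) (h : n = x ^ 2 + y ^ 2) :
    0 < x ∧ 0 < y ∧ x ≠ y := by
  refine ⟨?_, ?_, ?_⟩
  · rw [Nat.pos_iff_ne_zero]
    rintro rfl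
    have hd : y * y ∣ n := ⟨1, by rw [h]; ring⟩
    have := Nat.isUnit_iff.mp (hn y hd)
    subst this
    omega
  · rw [Nat.pos_iff_ne_zero]
    rintro rfl
    have hd : x * x ∣ n := ⟨1, by rw [h]; ring⟩
    have := Nat.isUnit_iff.mp (hn x hd)
    subst this
    omega
  · rintro rfl
    have hd : x * x ∣ n := ⟨2, by rw [h]; ring⟩
    have := Nat.isUnit_iff.mp (hn x hd)
    subst this
    omega

/-- Ordered version. -/
lemma exists_lt_of_squarefree {n : ℕ} (hn : Squarefree n) (h2 : 2 < n)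
    (h : ∃ x y, n = x ^ 2 + y ^ 2) : ∃ x y, 0 < x ∧ x < y ∧ n = x ^ 2 + y ^ 2 := by
  obtain ⟨x, y, hxy⟩ := h
  obtain ⟨hx, hy, hne⟩ := pos_ne_of_squarefree hn h2 hxy
  rcases lt_or_gt_of_ne hne with hlt | hlt
  · exact ⟨x, y, hx, hlt, hxy⟩
  · exact ⟨y, x, hy, hlt, by rw [hxy]; ring⟩

/-- A squarefree product of two coprime parts, both bigger than two and sums of two squares, has
two different representations as a sum of two positive squares. -/
lemma two_reps {u v : ℕ} (huv : Squarefree (u * v)) (hu : 2 < u) (hv : 2 < v)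
    (hu' : ∃ x y, u = x ^ 2 + y ^ 2) (hv' : ∃ x y, v = x ^ 2 + y ^ 2) :
    ∃ a b a' b' : ℕ, 0 < a ∧ a ≤ b ∧ 0 < a' ∧ a' ≤ b' ∧ b' < b ∧
      u * v = a ^ 2 + b ^ 2 ∧ u * v = a' ^ 2 + b' ^ 2 := by
  have hsu : Squarefree u := huv.of_mul_left
  have hsv : Squarefree v := huv.of_mul_right
  obtain ⟨c, d, hc, hcd, hu1⟩ := exists_lt_of_squarefree hsu hu hu'
  obtain ⟨e, f, he, hef, hv1⟩ := exists_lt_of_squarefree hsv hv hv'
  have h2 : 2 < u * v := by nlinarith
  -- work in the integers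
  have hkey1 : c * f + d * e < c * e + d * f := by
    obtain ⟨k, rfl⟩ := Nat.exists_eq_add_of_lt hcd
    obtain ⟨l, rfl⟩ := Nat.exists_eq_add_of_lt hef
    ring_nf
    nlinarith [Nat.zero_le (k * l)]
  -- first representation
  set A : ℕ := (c * f - d * e : ℤ).natAbs with hA
  have hAsq : (A : ℤ) ^ 2 = (c * f - d * e : ℤ) ^ 2 := by
    rw [hA, Int.natAbs_sq]
  have rep1 : u * v = A ^ 2 + (c * e + d * f) ^ 2 := by
    zify
    rw [hAsq, hu1, hv1]
    push_cast
    ring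
  obtain ⟨hApos, _, _⟩ := pos_ne_of_squarefree huv h2 rep1
  have hAle : A ≤ c * e + d * f := by
    have : (A : ℤ) ≤ c * e + d * f := by
      rw [hA, Int.natCast_natAbs, abs_le]
      constructor <;> nlinarith [mul_pos (Int.natCast_pos.mpr hc) (Int.natCast_pos.mpr he),
        (Int.natCast_nonneg (c * f)), (Int.natCast_nonneg (d * e)),
        (by exact_mod_cast hkey1.le : ((c : ℤ) * f + d * e) ≤ c * e + d * f)]
    exact_mod_cast this
  -- second representation
  have hce : c * e < d * f := Nat.mul_lt_mul'' hcd hef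
  obtain ⟨B, hB⟩ := Nat.exists_eq_add_of_lt hce
  have rep2 : u * v = (B + 1) ^ 2 + (c * f + d * e) ^ 2 := by
    have hB' : ((B + 1 : ℕ) : ℤ) = d * f - c * e := by
      have : ((d * f : ℕ) : ℤ) = ((c * e + B + 1 : ℕ) : ℤ) := by rw [hB]
      push_cast at this ⊢
      linarith
    zify
    push_cast at hB'
    rw [hB', hu1, hv1]
    push_cast
    ring
  have hBlt : B + 1 < c * e + d * f := by
    have : 0 < c * e := Nat.mul_pos hc he
    omega
  have hcfpos : 0 < c * f + d * e := by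
    have : 0 < c * f := Nat.mul_pos hc (lt_trans he hef)
    omega
  rcases le_total (B + 1) (c * f + d * e) with hle | hle
  · exact ⟨A, c * e + d * f, B + 1, c * f + d * e, hApos, hAle, by omega, hle, hkey1, rep1, rep2⟩
  · exact ⟨A, c * e + d * f, c * f + d * e, B + 1, hApos, hAle, hcfpos, hle, hBlt, rep1,
      by rw [rep2]; ring⟩

/-- A squarefree number without odd prime factor is `1` or `2`. -/
lemma eq_one_or_two {v : ℕ} (hv : Squarefree v) (h : ∀ q, q.Prime → q ∣ v → q = 2) :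
    v = 1 ∨ v = 2 := by
  by_cases h1 : v = 1
  · exact Or.inl h1
  right
  have h2 : v.minFac = 2 := h _ (Nat.minFac_prime h1) (Nat.minFac_dvd v)
  have h2d : 2 ∣ v := by rw [← h2]; exact Nat.minFac_dvd v
  obtain ⟨w, rfl⟩ := h2d
  by_cases hw : w = 1
  · subst hw; rfl
  have hw2 : w.minFac = 2 :=
    h _ (Nat.minFac_prime hw) ((Nat.minFac_dvd w).trans (Dvd.intro_left 2 rfl))
  have hw2d : 2 ∣ w := by rw [← hw2]; exact Nat.minFac_dvd w
  have : 2 * 2 ∣ 2 * w := Nat.mul_dvd_mul_left 2 hw2d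
  have := Nat.isUnit_iff.mp (hv 2 this)
  omega

/-- If `m > 0` has exactly one representation as a sum of two positive squares, then it is a
square times `1`, `2`, a prime, or twice a prime. -/
lemma structure_two_squares {m a b : ℕ} (hm : 0 < m) (hab : m = a ^ 2 + b ^ 2)
    (huniq : ∀ a' b' : ℕ, 0 < a' → a' ≤ b' → m = a' ^ 2 + b' ^ 2 → a' = a ∧ b' = b) :
    ∃ s : ℕ, 0 < s ∧ (m = s ^ 2 ∨ m = 2 * s ^ 2 ∨
      ∃ p : ℕ, p.Prime ∧ (m = s ^ 2 * p ∨ m = s ^ 2 * (2 * p))) := by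
  obtain ⟨r, s, hr, hs, hrs, hsq⟩ := Nat.sq_mul_squarefree_of_pos hm
  refine ⟨s, hs, ?_⟩
  have hmod : ∀ q, q.Prime → q ∣ r → q % 4 ≠ 3 := by
    intro q hq hqr hq3
    have : Fact q.Prime := ⟨hq⟩
    have hex : ∃ x y, m = x ^ 2 + y ^ 2 := ⟨a, b, hab⟩
    have hmem : q ∈ m.primeFactors := by
      rw [Nat.mem_primeFactors]
      exact ⟨hq, hrs ▸ Dvd.dvd.mul_left hqr _, hm.ne'⟩
    have hev := Nat.eq_sq_add_sq_iff.mp hex q hmem hq3
    have hval : padicValNat q m = 2 * padicValNat q s + padicValNat q r := by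
      rw [← hrs, padicValNat.mul (by positivity) hr.ne', padicValNat.pow]
    have h1 : padicValNat q r = 1 := by
      apply le_antisymm
      · rw [← Nat.factorization_def _ hq]
        exact hsq.natFactorization_le_one q
      · exact one_le_padicValNat_of_dvd hr.ne' hqr
    rw [hval, h1] at hev
    rcases hev with ⟨k, hk⟩
    omega
  have hsum : ∀ v, v ∣ r → ∃ x y, v = x ^ 2 + y ^ 2 := by
    intro v hv
    apply Nat.eq_sq_add_sq_of_isSquare_mod_neg_one
    rw [ZMod.isSquare_neg_one_iff_forall_mem_primeFactors_mod_four_ne_three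
      (hsq.squarefree_of_dvd hv)]
    intro q hq
    rw [Nat.mem_primeFactors] at hq
    exact hmod q hq.1 (hq.2.1.trans hv)
  by_cases hodd : ∃ p, p.Prime ∧ p ∣ r ∧ p ≠ 2
  · obtain ⟨p, hp, hpr, hp2⟩ := hodd
    obtain ⟨v, rfl⟩ := hpr
    right; right
    refine ⟨p, hp, ?_⟩
    have hp3 : 2 < p := lt_of_le_of_ne hp.two_le (Ne.symm hp2)
    have hv12 : v = 1 ∨ v = 2 := by
      apply eq_one_or_two hsq.of_mul_right
      intro q hq hqv
      by_contra hq2
      have hv3 : 2 < v := by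
        have h1 : q ≤ v := Nat.le_of_dvd (Nat.pos_of_ne_zero (by rintro rfl; simp at hr)) hqv
        have h2 := hq.two_le
        omega
      obtain ⟨x, y, x', y', hx, hxy, hx', hxy', hlt, e1, e2⟩ :=
        two_reps hsq hp3 hv3 (hsum p (Dvd.intro _ rfl)) (hsum v (Dvd.intro_left _ rfl))
      have u1 := huniq (s * x) (s * y) (by positivity) (Nat.mul_le_mul_left s hxy)
        (by rw [← hrs, e1]; ring)
      have u2 := huniq (s * x') (s * y') (by positivity) (Nat.mul_le_mul_left s hxy')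
        (by rw [← hrs, e2]; ring)
      have : s * y = s * y' := by rw [u1.2, u2.2]
      have := Nat.eq_of_mul_eq_mul_left hs this
      omega
    rcases hv12 with rfl | rfl
    · left; rw [← hrs]; ring
    · right; rw [← hrs]; ring
  · push Not at hodd
    rcases eq_one_or_two hsq hodd with rfl | rfl
    · left; rw [← hrs]; ring
    · right; left; rw [← hrs]; ring

/-! ### Counting -/

open Nat.Prime in
/-- Chebyshev's upper bound in a uniform shape. -/
lemma pi_bound : ∃ C : ℝ, 0 < C ∧ ∀ y : ℝ, 1 ≤ y →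
    (Nat.primeCounting ⌊y⌋₊ : ℝ) ≤ C * y / (1 + Real.log y) := by
  refine ⟨3 * (2 * Real.log 4 + 2), by positivity, fun y hy => ?_⟩
  have hlog0 : 0 ≤ Real.log y := Real.log_nonneg hy
  rcases lt_or_ge y 2 with h2 | h2
  · have hfl : ⌊y⌋₊ = 1 := by
      rw [Nat.floor_eq_iff (by linarith)]
      constructor
      · simpa using hy
      · norm_num; linarith
    rw [hfl]
    have : Nat.primeCounting 1 = 0 := by decide
    rw [this]
    simp only [Nat.cast_zero]
    positivity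
  · have h := Chebyshev.pi_le_log4_mul_div (x := y) (by linarith)
    refine h.trans ?_
    have hlogpos : 0 < Real.log y := Real.log_pos (by linarith)
    have hlog2 : (0.69 : ℝ) < Real.log y :=
      lt_of_lt_of_le (by linarith [Real.log_two_gt_d9]) (Real.log_le_log (by norm_num) h2)
    have hsqrt : Real.log √y = Real.log y / 2 := Real.log_sqrt (by linarith)
    rw [hsqrt]
    have hle : √y ≤ 2 * y / Real.log y := by
      rw [le_div_iff₀ hlogpos]
      have h1 : Real.log √y ≤ √y := (Real.log_le_sub_one_of_pos (by positivity)).trans (by linarith)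
      rw [hsqrt] at h1
      have h2' : √y * √y = y := Real.mul_self_sqrt (by linarith)
      nlinarith [Real.sqrt_nonneg y]
    have h1 : Real.log 4 * y / (Real.log y / 2) + √y ≤ (2 * Real.log 4 + 2) * y / Real.log y := by
      have e : Real.log 4 * y / (Real.log y / 2) = 2 * Real.log 4 * y / Real.log y := by
        field_simp
      rw [e, add_mul, add_div]
      linarith
    refine h1.trans ?_
    have h3 : 1 + Real.log y ≤ 3 * Real.log y := by linarith
    rw [div_le_div_iff₀ hlogpos (by positivity)]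
    have h4 : 0 ≤ (2 * Real.log 4 + 2) * y := by positivity
    nlinarith

/-- The counting function of `{ s² q : q ∈ primes }`, as a sum of values of the prime counting
function. -/
lemma card_sq_mul_prime (N : ℕ) :
    ({m : ℕ | m ≤ N ∧ ∃ s p : ℕ, 0 < s ∧ p.Prime ∧ m = s ^ 2 * p} : Set ℕ).ncard ≤
      ∑ s ∈ Finset.Icc 1 (Nat.sqrt N), Nat.primeCounting (N / s ^ 2) := by
  classical
  have hsub : ({m : ℕ | m ≤ N ∧ ∃ s p : ℕ, 0 < s ∧ p.Prime ∧ m = s ^ 2 * p} : Set ℕ) ⊆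
      (((Finset.Icc 1 (Nat.sqrt N)).biUnion fun s =>
        ((Finset.range (N / s ^ 2 + 1)).filter Nat.Prime).image fun p => s ^ 2 * p) :
          Finset ℕ) := by
    rintro m ⟨hmN, s, p, hs, hp, rfl⟩
    simp only [Finset.coe_biUnion, Set.mem_iUnion, Finset.coe_image, Set.mem_image,
      Finset.coe_filter, Finset.mem_range, Set.mem_ofPred_eq, Finset.mem_coe, Finset.mem_Icc]
    refine ⟨s, ⟨hs, ?_⟩, p, ⟨?_, hp⟩, rfl⟩
    · rw [Nat.le_sqrt']
      have := hp.one_lt
      nlinarith [pow_pos hs 2]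
    · rw [Nat.lt_succ_iff, Nat.le_div_iff_mul_le (by positivity)]
      linarith [mul_comm p (s ^ 2)]
  calc _ ≤ ((((Finset.Icc 1 (Nat.sqrt N)).biUnion fun s =>
        ((Finset.range (N / s ^ 2 + 1)).filter Nat.Prime).image fun p => s ^ 2 * p) :
          Finset ℕ) : Set ℕ).ncard := Set.ncard_le_ncard hsub (Finset.finite_toSet _)
    _ = (((Finset.Icc 1 (Nat.sqrt N)).biUnion fun s =>
        ((Finset.range (N / s ^ 2 + 1)).filter Nat.Prime).image fun p => s ^ 2 * p)).card :=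
          Set.ncard_coe_finset _
    _ ≤ ∑ s ∈ Finset.Icc 1 (Nat.sqrt N),
        (((Finset.range (N / s ^ 2 + 1)).filter Nat.Prime).image fun p => s ^ 2 * p).card :=
          Finset.card_biUnion_le
    _ ≤ ∑ s ∈ Finset.Icc 1 (Nat.sqrt N), Nat.primeCounting (N / s ^ 2) := by
          apply Finset.sum_le_sum
          intro s _
          refine Finset.card_image_le.trans ?_
          rw [Nat.primeCounting, Nat.primeCounting', Nat.count_eq_card_filter_range]

/-- The main estimate for the sum over `s`. -/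
lemma sum_pi_bound : ∃ C : ℝ, 0 < C ∧ ∀ N : ℕ, 2 ≤ N →
    (∑ s ∈ Finset.Icc 1 (Nat.sqrt N), (Nat.primeCounting (N / s ^ 2) : ℝ)) ≤
      C * (N / Real.log N) := by
  obtain ⟨C, hC, hpi⟩ := pi_bound
  have hsum : Summable fun s : ℕ => 1 / (s : ℝ) ^ (3 / 2 : ℝ) :=
    Real.summable_one_div_nat_rpow.mpr (by norm_num)
  refine ⟨5 * C * (∑' s : ℕ, 1 / (s : ℝ) ^ (3 / 2 : ℝ) + 1), ?_, fun N hN => ?_⟩
  · have : 0 ≤ ∑' s : ℕ, 1 / (s : ℝ) ^ (3 / 2 : ℝ) := tsum_nonneg fun s => by positivity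
    positivity
  have hN' : (2 : ℝ) ≤ N := by exact_mod_cast hN
  have hlogN : 0 < Real.log N := Real.log_pos (by linarith)
  have hterm : ∀ s ∈ Finset.Icc 1 (Nat.sqrt N), (Nat.primeCounting (N / s ^ 2) : ℝ) ≤
      5 * C * (N / Real.log N) * (1 / (s : ℝ) ^ (3 / 2 : ℝ)) := by
    intro s hs
    rw [Finset.mem_Icc, Nat.le_sqrt'] at hs
    obtain ⟨hs1, hs2⟩ := hs
    have hs1' : (1 : ℝ) ≤ s := by exact_mod_cast hs1
    have hs0 : (0 : ℝ) < s := by linarith
    have hs2' : (s : ℝ) ^ 2 ≤ N := by exact_mod_cast hs2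
    have hy : (1 : ℝ) ≤ N / (s : ℝ) ^ 2 := by
      rw [le_div_iff₀ (by positivity)]; linarith
    have h1 := hpi _ hy
    have hfl : ⌊(N : ℝ) / (s : ℝ) ^ 2⌋₊ = N / s ^ 2 := by
      have := Nat.floor_div_eq_div (K := ℝ) N (s ^ 2)
      push_cast at this
      exact this
    rw [hfl] at h1
    refine h1.trans ?_
    -- compare logarithms
    have hlogy : 0 ≤ Real.log (N / (s : ℝ) ^ 2) := Real.log_nonneg hy
    have hlogs : 0 ≤ Real.log s := Real.log_nonneg hs1'
    have hlog : Real.log N = Real.log (N / (s : ℝ) ^ 2) + 2 * Real.log s := by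
      rw [Real.log_div (by positivity) (by positivity), Real.log_pow]
      push_cast; ring
    have hle : Real.log N ≤ (1 + Real.log (N / (s : ℝ) ^ 2)) * (1 + 2 * Real.log s) := by
      rw [hlog]; nlinarith
    have hsqrt : 1 + 2 * Real.log s ≤ 5 * √s := by
      have h1 : Real.log √s ≤ √s - 1 := Real.log_le_sub_one_of_pos (by positivity)
      rw [Real.log_sqrt hs0.le] at h1
      have : 1 ≤ √(s : ℝ) := by rw [Real.one_le_sqrt]; exact hs1'
      linarith
    have hpow : (s : ℝ) ^ (3 / 2 : ℝ) * √s = (s : ℝ) ^ 2 := by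
      rw [Real.sqrt_eq_rpow, ← Real.rpow_add hs0, ← Real.rpow_natCast]
      norm_num
    have hrp : 0 < (s : ℝ) ^ (3 / 2 : ℝ) := Real.rpow_pos_of_pos hs0 _
    rw [← hpow] at hle ⊢
    set y : ℝ := N / ((s : ℝ) ^ (3 / 2 : ℝ) * √s) with hydef
    rw [← hpow] at hlogy
    have hsq : 0 < √(s : ℝ) := Real.sqrt_pos.mpr hs0
    rw [div_le_iff₀ (by positivity)]
    have e1 : C * y = C * N / ((s : ℝ) ^ (3 / 2 : ℝ) * √s) := by rw [hydef]; ring
    rw [e1]
    rw [div_le_iff₀ (by positivity)]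
    have h5 : Real.log N ≤ (1 + Real.log y) * (5 * √s) :=
      hle.trans (mul_le_mul_of_nonneg_left hsqrt (by positivity))
    have e2 : 5 * C * (N / Real.log N) * (1 / (s : ℝ) ^ (3 / 2 : ℝ)) * (1 + Real.log y) *
        ((s : ℝ) ^ (3 / 2 : ℝ) * √s) = C * N * (((1 + Real.log y) * (5 * √s)) / Real.log N) := by
      field_simp
    rw [e2]
    have h6 : 1 ≤ ((1 + Real.log y) * (5 * √s)) / Real.log N := by
      rw [le_div_iff₀ hlogN]; linarith
    have h7 : 0 ≤ C * N := by positivity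
    nlinarith
  calc _ ≤ ∑ s ∈ Finset.Icc 1 (Nat.sqrt N),
        5 * C * (N / Real.log N) * (1 / (s : ℝ) ^ (3 / 2 : ℝ)) := Finset.sum_le_sum hterm
    _ = 5 * C * (N / Real.log N) * ∑ s ∈ Finset.Icc 1 (Nat.sqrt N),
        (1 / (s : ℝ) ^ (3 / 2 : ℝ)) := by rw [Finset.mul_sum]
    _ ≤ 5 * C * (N / Real.log N) * (∑' s : ℕ, 1 / (s : ℝ) ^ (3 / 2 : ℝ)) := by
        apply mul_le_mul_of_nonneg_left _ (by positivity)
        exact hsum.sum_le_tsum _ (fun s _ => by positivity)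
    _ ≤ 5 * C * (∑' s : ℕ, 1 / (s : ℝ) ^ (3 / 2 : ℝ) + 1) * (N / Real.log N) := by
        have : 0 ≤ 5 * C * (N / Real.log N) := by positivity
        nlinarith

/-- Squares, twice squares and numbers `3a² + 3a³` up to `N` are at most `√N + 1` each. -/
lemma card_image_sqrt (N : ℕ) (f : ℕ → ℕ) (hf : ∀ a, a ^ 2 ≤ f a) :
    ({m : ℕ | m ≤ N ∧ ∃ a, m = f a} : Set ℕ).ncard ≤ Nat.sqrt N + 1 := by
  classical
  have hsub : ({m : ℕ | m ≤ N ∧ ∃ a, m = f a} : Set ℕ) ⊆
      (((Finset.range (Nat.sqrt N + 1)).image f : Finset ℕ) : Set ℕ) := by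
    rintro m ⟨hm, a, rfl⟩
    simp only [Finset.coe_image, Set.mem_image, Finset.mem_coe, Finset.mem_range]
    refine ⟨a, ?_, rfl⟩
    rw [Nat.lt_succ_iff, Nat.le_sqrt']
    exact (hf a).trans hm
  calc _ ≤ (((Finset.range (Nat.sqrt N + 1)).image f : Finset ℕ) : Set ℕ).ncard :=
        Set.ncard_le_ncard hsub (Finset.finite_toSet _)
    _ = ((Finset.range (Nat.sqrt N + 1)).image f).card := Set.ncard_coe_finset _
    _ ≤ (Finset.range (Nat.sqrt N + 1)).card := Finset.card_image_le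
    _ = Nat.sqrt N + 1 := Finset.card_range _

/-- Counting elements of `U` up to a natural number. -/
lemma card_U_le (N : ℕ) : ({m : ℕ | m ∈ U ∧ m ≤ N} : Set ℕ).ncard ≤
    3 * (Nat.sqrt N + 1) +
      2 * ∑ s ∈ Finset.Icc 1 (Nat.sqrt N), Nat.primeCounting (N / s ^ 2) := by
  set A : Set ℕ := {m : ℕ | m ≤ N ∧ ∃ a, m = a ^ 2} with hA
  set B : Set ℕ := {m : ℕ | m ≤ N ∧ ∃ a, m = 2 * a ^ 2} with hB
  set D : Set ℕ := {m : ℕ | m ≤ N ∧ ∃ a, m = 3 * a ^ 2 + 3 * a ^ 3} with hD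
  set P : Set ℕ := {m : ℕ | m ≤ N ∧ ∃ s p : ℕ, 0 < s ∧ p.Prime ∧ m = s ^ 2 * p} with hP
  set Q : Set ℕ := (fun m => 2 * m) '' P with hQ
  have hfin : ∀ T : Set ℕ, (∀ m ∈ T, m ≤ N) → T.Finite := fun T hT =>
    (Set.finite_Iic N).subset hT
  have hAf : A.Finite := hfin A fun m hm => hm.1
  have hBf : B.Finite := hfin B fun m hm => hm.1
  have hDf : D.Finite := hfin D fun m hm => hm.1
  have hPf : P.Finite := hfin P fun m hm => hm.1
  have hQf : Q.Finite := hPf.image _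
  have hsub : ({m : ℕ | m ∈ U ∧ m ≤ N} : Set ℕ) ⊆ A ∪ B ∪ D ∪ P ∪ Q := by
    rintro m ⟨hmU, hmN⟩
    have hm0 : 0 < m := lt_trans one_pos hmU.1
    rcases structure_U hmU with ⟨a, b, _, _, hab, huniq⟩ | ⟨a, _, h⟩
    · obtain ⟨s, hs, h | h | ⟨p, hp, h | h⟩⟩ := structure_two_squares hm0 hab huniq
      · exact Or.inl (Or.inl (Or.inl (Or.inl ⟨hmN, s, h⟩)))
      · exact Or.inl (Or.inl (Or.inl (Or.inr ⟨hmN, s, h⟩)))
      · exact Or.inl (Or.inr ⟨hmN, s, p, hs, hp, h⟩)
      · refine Or.inr ⟨s ^ 2 * p, ⟨?_, s, p, hs, hp, rfl⟩, ?_⟩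
        · rw [h] at hmN; nlinarith [Nat.zero_le (s ^ 2 * p)]
        · simp only; rw [h]; ring
    · exact Or.inl (Or.inl (Or.inr ⟨hmN, a, h⟩))
  have h1 : A.ncard ≤ Nat.sqrt N + 1 := card_image_sqrt N (fun a => a ^ 2) fun a => le_rfl
  have h2 : B.ncard ≤ Nat.sqrt N + 1 := card_image_sqrt N (fun a => 2 * a ^ 2) fun a => by
    nlinarith [Nat.zero_le (a ^ 2)]
  have h3 : D.ncard ≤ Nat.sqrt N + 1 :=
    card_image_sqrt N (fun a => 3 * a ^ 2 + 3 * a ^ 3) fun a => by
      nlinarith [Nat.zero_le (a ^ 2), Nat.zero_le (a ^ 3)]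
  have h4 := card_sq_mul_prime N
  have h5 : Q.ncard ≤ P.ncard := Set.ncard_image_le hPf
  calc ({m : ℕ | m ∈ U ∧ m ≤ N} : Set ℕ).ncard ≤ (A ∪ B ∪ D ∪ P ∪ Q).ncard :=
        Set.ncard_le_ncard hsub ((((hAf.union hBf).union hDf).union hPf).union hQf)
    _ ≤ (A ∪ B ∪ D ∪ P).ncard + Q.ncard := Set.ncard_union_le _ _
    _ ≤ (A ∪ B ∪ D).ncard + P.ncard + Q.ncard := by
        gcongr; exact Set.ncard_union_le _ _
    _ ≤ (A ∪ B).ncard + D.ncard + P.ncard + Q.ncard := by
        gcongr; exact Set.ncard_union_le _ _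
    _ ≤ A.ncard + B.ncard + D.ncard + P.ncard + Q.ncard := by
        gcongr; exact Set.ncard_union_le _ _
    _ ≤ _ := by
        rw [← hP] at h4
        omega

/-- `U(x) = O(x / log x)` as `x → ∞`. -/
theorem result : (fun x : ℝ => (countU x : ℝ)) =O[atTop] fun x : ℝ => x / Real.log x := by
  obtain ⟨C, hC, hsum⟩ := sum_pi_bound
  refine IsBigO.of_bound (2 * (12 + 2 * C)) ?_
  filter_upwards [eventually_ge_atTop (4 : ℝ)] with x hx
  have hx0 : 0 ≤ x := by linarith
  set N : ℕ := ⌊x⌋₊ with hN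
  have hN4 : 4 ≤ N := Nat.le_floor (by exact_mod_cast hx)
  have hN4' : (4 : ℝ) ≤ N := by exact_mod_cast hN4
  have hNx : (N : ℝ) ≤ x := Nat.floor_le hx0
  have hxN : x < N + 1 := Nat.lt_floor_add_one x
  have hlogN : 0 < Real.log N := Real.log_pos (by linarith)
  have hlogx : 0 < Real.log x := Real.log_pos (by linarith)
  have hset : {m : ℕ | m ∈ U ∧ (m : ℝ) ≤ x} = {m : ℕ | m ∈ U ∧ m ≤ N} := by
    ext m
    simp only [Set.mem_ofPred_eq]
    rw [hN, Nat.le_floor_iff hx0]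
  have hcount : (countU x : ℝ) ≤ 3 * (Nat.sqrt N + 1) +
      2 * ∑ s ∈ Finset.Icc 1 (Nat.sqrt N), (Nat.primeCounting (N / s ^ 2) : ℝ) := by
    unfold countU
    rw [hset]
    exact_mod_cast card_U_le N
  have hsqrtN : (Nat.sqrt N : ℝ) ≤ √N := Real.nat_sqrt_le_real_sqrt
  have hs1 : (1 : ℝ) ≤ √N := by rw [Real.one_le_sqrt]; linarith
  have hsq : √(N : ℝ) ≤ 2 * (N / Real.log N) := by
    rw [← mul_div_assoc, le_div_iff₀ hlogN]
    have h1 : Real.log √N ≤ √N := (Real.log_le_sub_one_of_pos (by positivity)).trans (by linarith)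
    rw [Real.log_sqrt (by positivity)] at h1
    have h2 : √(N : ℝ) * √N = N := Real.mul_self_sqrt (by positivity)
    nlinarith [Real.sqrt_nonneg (N : ℝ)]
  have h2 := hsum N (by omega)
  have hle : (countU x : ℝ) ≤ (12 + 2 * C) * (N / Real.log N) := by
    have : (0 : ℝ) ≤ N / Real.log N := by positivity
    nlinarith
  -- compare `N / log N` with `x / log x`
  have hlog2 : Real.log x ≤ 2 * Real.log N := by
    rw [← Real.log_rpow (by positivity)]
    apply Real.log_le_log (by linarith)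
    have : (N : ℝ) ^ (2 : ℝ) = N * N := by
      rw [show (2 : ℝ) = ((2 : ℕ) : ℝ) by norm_num, Real.rpow_natCast]; ring
    rw [this]; nlinarith
  have hcomp : (N : ℝ) / Real.log N ≤ 2 * (x / Real.log x) := by
    rw [← mul_div_assoc, div_le_div_iff₀ hlogN hlogx]
    nlinarith
  rw [Real.norm_of_nonneg (by positivity), Real.norm_of_nonneg (by positivity)]
  have hC' : 0 ≤ 12 + 2 * C := by positivity
  calc (countU x : ℝ) ≤ (12 + 2 * C) * (N / Real.log N) := hle
    _ ≤ (12 + 2 * C) * (2 * (x / Real.log x)) := mul_le_mul_of_nonneg_left hcomp hC'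
    _ = 2 * (12 + 2 * C) * (x / Real.log x) := by ring

end Pool.Agent.Results.MP_3400ab_nt.UpperBound
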